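import Pool.Agent.X40.SQ.Main

/-!
# MP_58a1ed_nt, Q1: the assertion fails for `n = 267497`
-/

set_option autoImplicit false

namespace Pool.Agent.Results.MP_58a1ed_nt.CounterexampleAt267497

open Nat.Partition

/-- For `n = 267497` there is no `k` as in Q1, so the assertion of Q1 is false. Here
`(distincts m).card` is the number of partitions of `m` into distinct parts. -/
theorem result :
    (∀ k : ℕ, 1 ≤ k → k ≤ 267497 - 1 →
      ¬ (4 ∣ Nat.totient (267497 - k) ∧
        (Nat.totient k + Nat.totient (267497 - k) / 4 - 1).Prime ∧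
        (Nat.totient k + Nat.totient (267497 - k) / 4 + 1).Prime ∧
        ((distincts (Nat.totient k + Nat.totient (267497 - k) / 4)).card + 1).Prime)) ∧
    ¬ ∀ n : ℕ, 60 ≤ n → ∃ k : ℕ, 1 ≤ k ∧ k ≤ n - 1 ∧
        4 ∣ Nat.totient (n - k) ∧
        (Nat.totient k + Nat.totient (n - k) / 4 - 1).Prime ∧
        (Nat.totient k + Nat.totient (n - k) / 4 + 1).Prime ∧
        ((distincts (Nat.totient k + Nat.totient (n - k) / 4)).card + 1).Prime := by
  have h : ∀ k : ℕ, 1 ≤ k → k ≤ 267497 - 1 →
      ¬ (4 ∣ Nat.totient (267497 - k) ∧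
        (Nat.totient k + Nat.totient (267497 - k) / 4 - 1).Prime ∧
        (Nat.totient k + Nat.totient (267497 - k) / 4 + 1).Prime ∧
        ((distincts (Nat.totient k + Nat.totient (267497 - k) / 4)).card + 1).Prime) :=
    fun k h1 h2 => Pool.Agent.X40.SQ.main k h1 h2
  refine ⟨h, fun h0 => ?_⟩
  obtain ⟨k, h1, h2, h3⟩ := h0 267497 (by norm_num)
  exact h k h1 h2 h3

end Pool.Agent.Results.MP_58a1ed_nt.CounterexampleAt267497
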